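import Pool.Agent.H6.GS2.Targets
import Pool.Agent.H6.GS2.Bas

/-!
# Theorem (G): the mean square of a sum of groups of two neighbouring exponentials (row GRM)
-/

set_option autoImplicit false

open Finset Pool.Agent.H6.N4D Pool.Agent.H93 Pool.Agent.H93.GS Pool.Agent.H6.GS2

namespace Pool.Agent.H24.GSW

private lemma grm_sum {α : Type} [AddCommMonoid α] (N n : ℕ) (F : ℕ → α) :
    ∑ m ∈ (Ioc n (n + N)).filter (fun m => 1 ∣ m), F m = ∑ j ∈ range N, F (n + 1 + j) := by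
  have h1 : (Ioc n (n + N)).filter (fun m => 1 ∣ m) = Ico (n + 1) (n + 1 + N) := by
    ext x
    simp only [mem_filter, mem_Ioc, mem_Ico, one_dvd, and_true]
    omega
  rw [h1, sum_Ico_eq_sum_range]
  have h2 : n + 1 + N - (n + 1) = N := by omega
  rw [h2]

private lemma grm_ar (N n : ℕ) (F : ℕ → ℝ) :
    ar 1 N n F = (∑ j ∈ range N, F (n + 1 + j)) / N := by
  unfold ar; rw [grm_sum]; simp

private lemma grm_ac (N n : ℕ) (F : ℕ → ℂ) :
    ac 1 N n F = (∑ j ∈ range N, F (n + 1 + j)) / N := by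
  unfold ac; rw [grm_sum]; simp

/-- summation by parts -/
private lemma grm_parts (f e : ℕ → ℂ) (N : ℕ) :
    ∑ j ∈ range N, f j * e j = f N * ∑ k ∈ range N, e k -
      ∑ j ∈ range N, (f (j + 1) - f j) * ∑ k ∈ range (j + 1), e k := by
  induction N with
  | zero => simp
  | succ N ih =>
    rw [sum_range_succ, ih, sum_range_succ (fun j => (f (j + 1) - f j) * ∑ k ∈ range (j + 1), e k)]
    rw [sum_range_succ (fun k => e k) N]
    ring

private lemma grm_abel (f e : ℕ → ℂ) (N : ℕ) (A D M : ℝ) (hD : 0 ≤ D)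
    (hf : ‖f N‖ ≤ A) (hd : ∀ j < N, ‖f (j + 1) - f j‖ ≤ D)
    (hM : ∀ t ≤ N, ‖∑ k ∈ range t, e k‖ ≤ M) :
    ‖∑ j ∈ range N, f j * e j‖ ≤ (A + N * D) * M := by
  have hA : 0 ≤ A := (norm_nonneg _).trans hf
  have hM0 : 0 ≤ M := (norm_nonneg _).trans (hM 0 (Nat.zero_le _))
  rw [grm_parts]
  refine (norm_sub_le _ _).trans ?_
  have h1 : ‖f N * ∑ k ∈ range N, e k‖ ≤ A * M := by
    rw [norm_mul]
    exact mul_le_mul hf (hM N le_rfl) (norm_nonneg _) hA
  have h2 : ‖∑ j ∈ range N, (f (j + 1) - f j) * ∑ k ∈ range (j + 1), e k‖ ≤ N * (D * M) := by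
    refine (norm_sum_le _ _).trans ?_
    calc ∑ j ∈ range N, ‖(f (j + 1) - f j) * ∑ k ∈ range (j + 1), e k‖
        ≤ ∑ _j ∈ range N, D * M := by
          apply sum_le_sum
          intro j hj
          rw [norm_mul]
          have hj' := mem_range.1 hj
          exact mul_le_mul (hd j hj') (hM (j + 1) hj') (norm_nonneg _) hD
      _ = N * (D * M) := by rw [sum_const, card_range, nsmul_eq_mul]
  calc _ ≤ A * M + N * (D * M) := add_le_add h1 h2
    _ = (A + N * D) * M := by ring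

/-- the second order bound -/
private lemma grm_taylor (y : ℝ) (hy : 2 * Real.pi * |y| ≤ 1) :
    ‖ee y - 1 - ((2 * Real.pi * y : ℝ) : ℂ) * Complex.I‖ ≤ 4 * Real.pi ^ 2 * y ^ 2 := by
  have h1 : ‖((2 * Real.pi * y : ℝ) : ℂ) * Complex.I‖ = 2 * Real.pi * |y| := by
    rw [norm_mul, Complex.norm_I, mul_one, Complex.norm_real, Real.norm_eq_abs, abs_mul, abs_mul,
      abs_of_pos Real.pi_pos]
    norm_num
  have h2 := Complex.norm_exp_sub_one_sub_id_le (x := ((2 * Real.pi * y : ℝ) : ℂ) * Complex.I)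
    (by rw [h1]; exact hy)
  rw [h1] at h2
  unfold ee
  refine h2.trans (le_of_eq ?_)
  rw [mul_pow, sq_abs]; ring

/-- the position in the window -/
private noncomputable def xx (N j : ℕ) : ℝ := ((j : ℝ) + 1 - N / 2) / N

private lemma xx_abs (N j : ℕ) (hN : 1 ≤ N) (hj : j < N) : |xx N j| ≤ 1 / 2 := by
  have hN' : (0 : ℝ) < N := by exact_mod_cast hN
  have hj' : (j : ℝ) + 1 ≤ N := by exact_mod_cast hj
  have hj0 : (0 : ℝ) ≤ j := Nat.cast_nonneg j
  unfold xx
  rw [abs_le, le_div_iff₀ hN', div_le_iff₀ hN']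
  constructor <;> linarith

private lemma xx_abs' (N j : ℕ) (hN : 2 ≤ N) (hj : j ≤ N) : |xx N j| ≤ 1 := by
  have hN' : (2 : ℝ) ≤ N := by exact_mod_cast hN
  have hj' : (j : ℝ) ≤ N := by exact_mod_cast hj
  have hj0 : (0 : ℝ) ≤ j := Nat.cast_nonneg j
  unfold xx
  rw [abs_le, le_div_iff₀ (by linarith), div_le_iff₀ (by linarith)]
  constructor <;> linarith

private lemma xx_sum (N : ℕ) (hN : 1 ≤ N) : ∑ j ∈ range N, xx N j = 1 / 2 := by
  have hN' : (N : ℝ) ≠ 0 := by positivity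
  have h : ∀ K : ℕ, ∑ j ∈ range K, (((j : ℝ) + 1 - N / 2)) = (K : ℝ) * (K + 1) / 2 - K * N / 2 := by
    intro K
    induction K with
    | zero => simp
    | succ K ih => rw [sum_range_succ, ih]; push_cast; ring
  unfold xx
  rw [← sum_div, h N]
  field_simp
  ring

private lemma xx_sq (N : ℕ) (hN : 1 ≤ N) :
    ∑ j ∈ range N, xx N j ^ 2 = N / 12 + 1 / (6 * N) := by
  have hN' : (N : ℝ) ≠ 0 := by positivity
  have h : ∀ K : ℕ, ∑ j ∈ range K, (((j : ℝ) + 1 - N / 2)) ^ 2 =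
      (K : ℝ) * (K + 1) * (2 * K + 1) / 6 - K * (K + 1) / 2 * N + K * N ^ 2 / 4 := by
    intro K
    induction K with
    | zero => simp
    | succ K ih => rw [sum_range_succ, ih]; push_cast; ring
  unfold xx
  simp_rw [div_pow]
  rw [← sum_div, h N]
  field_simp
  ring

/-- the lower bound of a group -/
private lemma grm_diag (N : ℕ) (hN : 400 ≤ N) (s : ℝ) (hs : |s| ≤ 1 / 10) (z c' : ℂ) :
    1 / 4 * (‖z - c'‖ + ‖z‖ * |s|) ^ 2 * N ≤
      ∑ j ∈ range N, ‖z * ee (s * xx N j) - c'‖ ^ 2 := by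
  have hN' : (400 : ℝ) ≤ N := by exact_mod_cast hN
  have hN0 : (0 : ℝ) < N := by linarith
  have hpi := Real.pi_lt_d2
  have hpi3 := Real.pi_gt_three
  have hpi2 : Real.pi ^ 2 ≤ 9.93 := by nlinarith
  have hy : ∀ j < N, |s * xx N j| ≤ 1 / 20 := by
    intro j hj
    rw [abs_mul]
    calc |s| * |xx N j| ≤ 1 / 10 * (1 / 2) :=
          mul_le_mul hs (xx_abs N j (by omega) hj) (abs_nonneg _) (by norm_num)
      _ = 1 / 20 := by norm_num
  have hy2 : ∀ j < N, 2 * Real.pi * |s * xx N j| ≤ 1 := by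
    intro j hj
    have := hy j hj
    nlinarith [abs_nonneg (s * xx N j)]
  set S1 : ℂ := ∑ j ∈ range N, (ee (s * xx N j) - 1) with hS1
  -- the sum of the differences
  have h1 : ‖S1‖ ≤ 35 / 100 * |s| * N := by
    have e1 : S1 = ((2 * Real.pi * s * ∑ j ∈ range N, xx N j : ℝ) : ℂ) * Complex.I +
        ∑ j ∈ range N, (ee (s * xx N j) - 1 -
          ((2 * Real.pi * (s * xx N j) : ℝ) : ℂ) * Complex.I) := by
      have e0 : ((2 * Real.pi * s * ∑ j ∈ range N, xx N j : ℝ) : ℂ) * Complex.I =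
          ∑ j ∈ range N, ((2 * Real.pi * (s * xx N j) : ℝ) : ℂ) * Complex.I := by
        rw [← sum_mul, ← Complex.ofReal_sum, mul_sum]
        congr 2
        exact sum_congr rfl fun j _ => by ring
      rw [e0, hS1, ← sum_add_distrib]
      exact sum_congr rfl fun j _ => by ring
    have e2 : ‖((2 * Real.pi * s * ∑ j ∈ range N, xx N j : ℝ) : ℂ) * Complex.I‖ ≤
        Real.pi * |s| := by
      rw [xx_sum N (by omega), norm_mul, Complex.norm_I, mul_one, Complex.norm_real,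
        Real.norm_eq_abs, abs_mul, abs_mul, abs_mul, abs_of_pos Real.pi_pos]
      norm_num
      nlinarith [abs_nonneg s]
    have e3 : ‖∑ j ∈ range N, (ee (s * xx N j) - 1 -
          ((2 * Real.pi * (s * xx N j) : ℝ) : ℂ) * Complex.I)‖ ≤
        4 * Real.pi ^ 2 * s ^ 2 * (N / 12 + 1 / (6 * N)) := by
      rw [← xx_sq N (by omega), mul_sum]
      refine (norm_sum_le _ _).trans (sum_le_sum fun j hj => ?_)
      have := grm_taylor (s * xx N j) (hy2 j (mem_range.1 hj))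
      calc _ ≤ _ := this
        _ = _ := by ring
    have e4 : (1 : ℝ) / (6 * N) ≤ N / 10000 := by
      rw [div_le_iff₀ (by positivity)]
      nlinarith
    have hs2 : s ^ 2 ≤ 1 / 10 * |s| := by
      rw [← sq_abs]; nlinarith [abs_nonneg s]
    have e5 : 4 * Real.pi ^ 2 * s ^ 2 * (N / 12 + 1 / (6 * N)) ≤
        4 * 9.93 * (1 / 10 * |s|) * (N / 12 + N / 10000) := by
      gcongr
    have e6 : Real.pi * |s| ≤ 3.15 * |s| * (N / 400) := by
      have : (1 : ℝ) ≤ N / 400 := by rw [le_div_iff₀ (by norm_num)]; linarith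
      have h7 : Real.pi * |s| ≤ 3.15 * |s| := by
        have := abs_nonneg s
        nlinarith
      have h8 : 0 ≤ 3.15 * |s| := by positivity
      nlinarith
    rw [e1]
    refine (norm_add_le _ _).trans ?_
    have h9 : 0 ≤ |s| * N := by positivity
    nlinarith
  -- the sum of the squares
  have h2 : ∀ j < N, 16 * s ^ 2 * xx N j ^ 2 ≤ ‖ee (s * xx N j) - 1‖ ^ 2 := by
    intro j hj
    have e1 := grm_taylor (s * xx N j) (hy2 j hj)
    have e2 : ‖((2 * Real.pi * (s * xx N j) : ℝ) : ℂ) * Complex.I‖ =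
        2 * Real.pi * |s * xx N j| := by
      rw [norm_mul, Complex.norm_I, mul_one, Complex.norm_real, Real.norm_eq_abs, abs_mul, abs_mul,
        abs_of_pos Real.pi_pos]
      norm_num
    have e3 : 2 * Real.pi * |s * xx N j| ≤ ‖ee (s * xx N j) - 1‖ +
        4 * Real.pi ^ 2 * (s * xx N j) ^ 2 := by
      rw [← e2]
      calc ‖((2 * Real.pi * (s * xx N j) : ℝ) : ℂ) * Complex.I‖
          = ‖(ee (s * xx N j) - 1) - (ee (s * xx N j) - 1 -
            ((2 * Real.pi * (s * xx N j) : ℝ) : ℂ) * Complex.I)‖ := by congr 1; ring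
        _ ≤ _ := (norm_sub_le _ _).trans (by gcongr)
    have e4 : 4 * |s * xx N j| ≤ ‖ee (s * xx N j) - 1‖ := by
      have e5 : (s * xx N j) ^ 2 ≤ 1 / 20 * |s * xx N j| := by
        rw [← sq_abs]; nlinarith [abs_nonneg (s * xx N j), hy j hj]
      have e6 : 4 * Real.pi ^ 2 * (s * xx N j) ^ 2 ≤ 4 * 9.93 * (1 / 20 * |s * xx N j|) := by
        gcongr
      nlinarith [abs_nonneg (s * xx N j)]
    calc 16 * s ^ 2 * xx N j ^ 2 = (4 * |s * xx N j|) ^ 2 := by
          rw [mul_pow, sq_abs]; ring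
      _ ≤ _ := pow_le_pow_left₀ (by positivity) e4 2
  have h3 : 4 / 3 * s ^ 2 * N ≤ ∑ j ∈ range N, ‖ee (s * xx N j) - 1‖ ^ 2 := by
    calc 4 / 3 * s ^ 2 * N ≤ 16 * s ^ 2 * (N / 12 + 1 / (6 * N)) := by
          have : 0 ≤ s ^ 2 * (1 / (6 * (N : ℝ))) := by positivity
          nlinarith
      _ = ∑ j ∈ range N, 16 * s ^ 2 * xx N j ^ 2 := by rw [← mul_sum, xx_sq N (by omega)]
      _ ≤ _ := sum_le_sum fun j hj => h2 j (mem_range.1 hj)
  -- the expansion
  have h4 : ∀ j, ‖z * ee (s * xx N j) - c'‖ ^ 2 = ‖z - c'‖ ^ 2 +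
      2 * ((starRingEnd ℂ) (z - c') * z * (ee (s * xx N j) - 1)).re +
      ‖z‖ ^ 2 * ‖ee (s * xx N j) - 1‖ ^ 2 := by
    intro j
    have e1 : z * ee (s * xx N j) - c' = (z - c') + z * (ee (s * xx N j) - 1) := by ring
    rw [e1, ← mul_pow, ← norm_mul, mul_assoc]
    generalize z * (ee (s * xx N j) - 1) = w
    generalize z - c' = u
    rw [← Complex.normSq_eq_norm_sq, ← Complex.normSq_eq_norm_sq, ← Complex.normSq_eq_norm_sq]
    simp only [Complex.normSq_apply, Complex.add_re, Complex.add_im, Complex.mul_re,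
      Complex.conj_re, Complex.conj_im]
    ring
  have h5 : ∑ j ∈ range N, ‖z * ee (s * xx N j) - c'‖ ^ 2 = N * ‖z - c'‖ ^ 2 +
      2 * ((starRingEnd ℂ) (z - c') * z * S1).re +
      ‖z‖ ^ 2 * ∑ j ∈ range N, ‖ee (s * xx N j) - 1‖ ^ 2 := by
    rw [sum_congr rfl fun j _ => h4 j, sum_add_distrib, sum_add_distrib, ← mul_sum, ← mul_sum,
      ← Complex.re_sum, ← mul_sum, sum_const, card_range, nsmul_eq_mul]
  have h6 : -(‖z - c'‖ * ‖z‖ * (35 / 100 * |s| * N)) ≤
      ((starRingEnd ℂ) (z - c') * z * S1).re := by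
    have e1 := Complex.abs_re_le_norm ((starRingEnd ℂ) (z - c') * z * S1)
    rw [norm_mul, norm_mul, Complex.norm_conj] at e1
    have e2 := (abs_le.1 e1).1
    have e3 : ‖z - c'‖ * ‖z‖ * ‖S1‖ ≤ ‖z - c'‖ * ‖z‖ * (35 / 100 * |s| * N) := by gcongr
    linarith
  rw [h5]
  have h7 : ‖z‖ ^ 2 * (4 / 3 * s ^ 2 * N) ≤
      ‖z‖ ^ 2 * ∑ j ∈ range N, ‖ee (s * xx N j) - 1‖ ^ 2 := by gcongr
  have h8 : s ^ 2 = |s| ^ 2 := (sq_abs s).symm
  rw [h8] at h7
  have h9 : 0 ≤ (N : ℝ) * ((3 / 4 * (‖z - c'‖ - 8 / 10 * (‖z‖ * |s|)) ^ 2) +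
      (13 / 12 - 48 / 100) * (‖z‖ * |s|) ^ 2) := by positivity
  nlinarith

/-- the cross terms -/
private lemma grm_off (hG : T_GEX) (N n : ℕ) (hN : 2 ≤ N) (Lam δ : ℝ) (hL : 0 < Lam)
    (hδ : Lam / N ≤ nd δ) (z z' c c' : ℂ) (s s' : ℝ) :
    ‖∑ j ∈ range N, ((z * ee (s * xx N j) - c) *
      (starRingEnd ℂ) (z' * ee (s' * xx N j) - c')) * ee (δ * ((n + 1 + j : ℕ) : ℝ))‖ ≤
      60 * N / Lam * ((‖z - c‖ + ‖z‖ * |s|) * (‖z' - c'‖ + ‖z'‖ * |s'|)) := by
  have hN' : (0 : ℝ) < N := by positivity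
  have hpi := Real.pi_lt_d2
  have hpi3 := Real.pi_gt_three
  have hpi2 : Real.pi ^ 2 ≤ 9.93 := by nlinarith
  have hnd : 0 < nd δ := lt_of_lt_of_le (by positivity) hδ
  -- one factor
  have hv : ∀ (z c : ℂ) (s : ℝ), ∀ j ≤ N, ‖z * ee (s * xx N j) - c‖ ≤
      2 * Real.pi * (‖z - c‖ + ‖z‖ * |s|) := by
    intro z c s j hj
    have e1 : z * ee (s * xx N j) - c = (z - c) + z * (ee (s * xx N j) - 1) := by ring
    rw [e1]
    refine (norm_add_le _ _).trans ?_
    rw [norm_mul]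
    have e2 := norm_ee_sub_one_le (s * xx N j)
    rw [abs_mul] at e2
    have e3 := xx_abs' N j hN hj
    have e4 : ‖ee (s * xx N j) - 1‖ ≤ 2 * Real.pi * |s| := by
      refine e2.trans ?_
      have : |s| * |xx N j| ≤ |s| * 1 := by gcongr
      nlinarith
    have e5 : ‖z‖ * ‖ee (s * xx N j) - 1‖ ≤ ‖z‖ * (2 * Real.pi * |s|) := by gcongr
    have e6 : ‖z - c‖ ≤ 2 * Real.pi * ‖z - c‖ := by nlinarith [norm_nonneg (z - c)]
    linarith
  have hd : ∀ (z c : ℂ) (s : ℝ) (j : ℕ), ‖(z * ee (s * xx N (j + 1)) - c) -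
      (z * ee (s * xx N j) - c)‖ ≤ 2 * Real.pi * (‖z - c‖ + ‖z‖ * |s|) / N := by
    intro z c s j
    have e1 : (z * ee (s * xx N (j + 1)) - c) - (z * ee (s * xx N j) - c) =
        z * ee (s * xx N j) * (ee (s / N) - 1) := by
      have : s * xx N (j + 1) = s * xx N j + s / N := by unfold xx; push_cast; field_simp; ring
      rw [this, ee_add]; ring
    rw [e1, norm_mul, norm_mul, norm_ee, mul_one]
    have e2 := norm_ee_sub_one_le (s / N)
    rw [abs_div, abs_of_pos hN'] at e2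
    calc ‖z‖ * ‖ee (s / N) - 1‖ ≤ ‖z‖ * (2 * Real.pi * (|s| / N)) := by gcongr
      _ = 2 * Real.pi * (‖z‖ * |s|) / N := by ring
      _ ≤ _ := by
        gcongr
        linarith [norm_nonneg (z - c)]
  set B := ‖z - c‖ + ‖z‖ * |s| with hB
  set B' := ‖z' - c'‖ + ‖z'‖ * |s'| with hB'
  have hB0 : 0 ≤ B := by positivity
  have hB0' : 0 ≤ B' := by positivity
  have h1 := grm_abel (fun j => (z * ee (s * xx N j) - c) *
      (starRingEnd ℂ) (z' * ee (s' * xx N j) - c')) (fun j => ee (δ * ((n + 1 + j : ℕ) : ℝ))) N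
      (4 * Real.pi ^ 2 * (B * B')) (8 * Real.pi ^ 2 * (B * B') / N) (N / (2 * Lam))
      (by positivity) ?_ ?_ ?_
  · refine h1.trans ?_
    have e1 : (4 * Real.pi ^ 2 * (B * B') + N * (8 * Real.pi ^ 2 * (B * B') / N)) *
        (N / (2 * Lam)) = 6 * Real.pi ^ 2 * (N / Lam * (B * B')) := by
      field_simp
      ring
    rw [e1]
    have e2 : 0 ≤ N / Lam * (B * B') := by positivity
    calc 6 * Real.pi ^ 2 * (N / Lam * (B * B')) ≤ 60 * (N / Lam * (B * B')) := by
          apply mul_le_mul_of_nonneg_right _ e2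
          linarith
      _ = _ := by ring
  · rw [norm_mul, Complex.norm_conj]
    calc _ ≤ (2 * Real.pi * B) * (2 * Real.pi * B') :=
          mul_le_mul (hv z c s N le_rfl) (hv z' c' s' N le_rfl) (norm_nonneg _) (by positivity)
      _ = _ := by ring
  · intro j hj
    have e1 : (z * ee (s * xx N (j + 1)) - c) *
        (starRingEnd ℂ) (z' * ee (s' * xx N (j + 1)) - c') -
        (z * ee (s * xx N j) - c) * (starRingEnd ℂ) (z' * ee (s' * xx N j) - c') =
        ((z * ee (s * xx N (j + 1)) - c) - (z * ee (s * xx N j) - c)) *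
          (starRingEnd ℂ) (z' * ee (s' * xx N (j + 1)) - c') +
        (z * ee (s * xx N j) - c) * (starRingEnd ℂ) ((z' * ee (s' * xx N (j + 1)) - c') -
          (z' * ee (s' * xx N j) - c')) := by
      rw [map_sub (starRingEnd ℂ) (z' * ee (s' * xx N (j + 1)) - c')]; ring
    rw [e1]
    refine (norm_add_le _ _).trans ?_
    rw [norm_mul, norm_mul, Complex.norm_conj, Complex.norm_conj]
    calc _ ≤ (2 * Real.pi * B / N) * (2 * Real.pi * B') + (2 * Real.pi * B) *
          (2 * Real.pi * B' / N) :=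
          add_le_add (mul_le_mul (hd z c s j) (hv z' c' s' (j + 1) hj) (norm_nonneg _)
            (by positivity)) (mul_le_mul (hv z c s j hj.le) (hd z' c' s' j) (norm_nonneg _)
            (by positivity))
      _ = _ := by ring
  · intro t ht
    rcases Nat.eq_zero_or_pos t with h0 | h0
    · subst h0; simp; positivity
    · have ht' : (0 : ℝ) < t := by exact_mod_cast h0
      have e1 := hG 1 t n δ le_rfl h0 (by simpa using hnd)
      rw [grm_ac] at e1
      simp only [Nat.cast_one, one_mul] at e1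
      rw [norm_div, Complex.norm_natCast, div_le_iff₀ ht'] at e1
      refine e1.trans ?_
      have e2 : 1 / (2 * t * nd δ) * t = 1 / (2 * nd δ) := by field_simp
      rw [e2]
      rw [div_le_div_iff₀ (by positivity) (by positivity)]
      rw [div_le_iff₀ hN'] at hδ
      linarith

/-- the value of a group -/
private lemma grm_val (N n j : ℕ) (hN : 1 ≤ N) (γ s : ℝ) (c c' : ℂ) :
    c * ee ((γ + s / N) * ((n + 1 + j : ℕ) : ℝ)) - c' * ee (γ * ((n + 1 + j : ℕ) : ℝ)) =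
      (ctr N n c s * ee (s * xx N j) - c') * ee (γ * ((n + 1 + j : ℕ) : ℝ)) := by
  have hN' : (N : ℝ) ≠ 0 := by positivity
  have h1 : (γ + s / N) * ((n + 1 + j : ℕ) : ℝ) = s / N * (n + (N : ℝ) / 2) + s * xx N j +
      γ * ((n + 1 + j : ℕ) : ℝ) := by
    unfold xx; push_cast; field_simp; ring
  rw [h1, ee_add, ee_add]
  unfold ctr
  ring

theorem pf_GRM (hG : T_GEX) : T_GRM := by
  refine ⟨400, by norm_num, ?_⟩
  intro N n r Lam γ s c c' hN1 hN hLam hs hsep
  have hN400 : 400 ≤ N := by exact_mod_cast hN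
  have hN0 : (0 : ℝ) < N := by linarith
  have hr0 : (0 : ℝ) ≤ r := Nat.cast_nonneg r
  have hL : 0 < Lam := by linarith
  set B : ℕ → ℝ := fun i => ‖ctr N n (c i) (s i) - c' i‖ + ‖c i‖ * |s i| with hB
  have hctr : ∀ i, ‖ctr N n (c i) (s i)‖ = ‖c i‖ := by
    intro i; unfold ctr; rw [norm_mul, norm_ee, mul_one]
  have hB0 : ∀ i, 0 ≤ B i := fun i => by simp only [hB]; positivity
  set v : ℕ → ℕ → ℂ := fun i j => ctr N n (c i) (s i) * ee (s i * xx N j) - c' i with hv
  set u : ℕ → ℕ → ℂ := fun i j => v i j * ee (γ i * ((n + 1 + j : ℕ) : ℝ)) with hu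
  have h1 : ar 1 N n (fun m => ‖∑ i ∈ range r, (c i * ee ((γ i + s i / N) * m) -
      c' i * ee (γ i * m))‖ ^ 2) = (∑ j ∈ range N, ‖∑ i ∈ range r, u i j‖ ^ 2) / N := by
    rw [grm_ar]
    congr 1
    apply sum_congr rfl
    intro j _
    congr 2
    apply sum_congr rfl
    intro i _
    exact grm_val N n j hN1 (γ i) (s i) (c i) (c' i)
  have h2 : ∀ j, ‖∑ i ∈ range r, u i j‖ ^ 2 =
      ∑ i ∈ range r, ∑ l ∈ range r, (u i j * (starRingEnd ℂ) (u l j)).re := by
    intro j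
    have e1 : ((‖∑ i ∈ range r, u i j‖ ^ 2 : ℝ) : ℂ) =
        ∑ i ∈ range r, ∑ l ∈ range r, (u i j * (starRingEnd ℂ) (u l j)) := by
      rw [← Complex.normSq_eq_norm_sq, ← Complex.mul_conj, map_sum, sum_mul_sum]
    have e2 := congrArg Complex.re e1
    rw [Complex.ofReal_re, Complex.re_sum] at e2
    rw [e2]
    exact sum_congr rfl fun i _ => Complex.re_sum _ _
  set K : ℝ := 60 * N / Lam with hK
  have hK0 : 0 ≤ K := by positivity
  have h3 : ∀ i < r, ∀ l < r, (if i = l then 1 / 4 * B i ^ 2 * N else 0) - K * (B i * B l) ≤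
      (∑ j ∈ range N, (u i j * (starRingEnd ℂ) (u l j))).re := by
    intro i hi l hl
    by_cases hil : i = l
    · subst hil
      rw [if_pos rfl]
      have e1 := grm_diag N hN400 (s i) (hs i hi) (ctr N n (c i) (s i)) (c' i)
      rw [hctr] at e1
      have e2 : (∑ j ∈ range N, (u i j * (starRingEnd ℂ) (u i j))).re =
          ∑ j ∈ range N, ‖ctr N n (c i) (s i) * ee (s i * xx N j) - c' i‖ ^ 2 := by
        rw [Complex.re_sum]
        apply sum_congr rfl
        intro j _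
        rw [Complex.mul_conj, Complex.ofReal_re, Complex.normSq_eq_norm_sq]
        simp only [hu, hv]
        rw [norm_mul, norm_ee, mul_one]
      rw [e2]
      have e3 : 0 ≤ K * (B i * B i) := by have := hB0 i; positivity
      simp only [hB] at e3 ⊢
      linarith
    · rw [if_neg hil]
      have e1 := grm_off hG N n (by omega) Lam (γ i - γ l) hL (hsep i hi l hl hil)
        (ctr N n (c i) (s i)) (ctr N n (c l) (s l)) (c' i) (c' l) (s i) (s l)
      rw [hctr, hctr] at e1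
      have e2 : ∑ j ∈ range N, (u i j * (starRingEnd ℂ) (u l j)) =
          ∑ j ∈ range N, ((ctr N n (c i) (s i) * ee (s i * xx N j) - c' i) *
            (starRingEnd ℂ) (ctr N n (c l) (s l) * ee (s l * xx N j) - c' l)) *
            ee ((γ i - γ l) * ((n + 1 + j : ℕ) : ℝ)) := by
        apply sum_congr rfl
        intro j _
        simp only [hu, hv]
        rw [map_mul, conj_ee]
        have e3 : (γ i - γ l) * ((n + 1 + j : ℕ) : ℝ) = γ i * ((n + 1 + j : ℕ) : ℝ) +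
            -(γ l * ((n + 1 + j : ℕ) : ℝ)) := by ring
        rw [e3, ee_add]
        ring
      rw [e2]
      have e3 := (abs_le.1 ((Complex.abs_re_le_norm _).trans e1)).1
      simp only [hB]
      linarith
  have h4 : ∑ j ∈ range N, ‖∑ i ∈ range r, u i j‖ ^ 2 =
      ∑ i ∈ range r, ∑ l ∈ range r, (∑ j ∈ range N, (u i j * (starRingEnd ℂ) (u l j))).re := by
    rw [sum_congr rfl fun j _ => h2 j, sum_comm]
    apply sum_congr rfl
    intro i _
    rw [sum_comm]
    apply sum_congr rfl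
    intro l _
    rw [Complex.re_sum]
  have h5 : 1 / 4 * N * ∑ i ∈ range r, B i ^ 2 - K * (∑ i ∈ range r, B i) ^ 2 ≤
      ∑ j ∈ range N, ‖∑ i ∈ range r, u i j‖ ^ 2 := by
    rw [h4]
    calc 1 / 4 * N * ∑ i ∈ range r, B i ^ 2 - K * (∑ i ∈ range r, B i) ^ 2
        = ∑ i ∈ range r, ∑ l ∈ range r,
          ((if i = l then 1 / 4 * B i ^ 2 * N else 0) - K * (B i * B l)) := by
          have e1 : ∀ i ∈ range r, ∑ l ∈ range r,
              ((if i = l then 1 / 4 * B i ^ 2 * N else 0) - K * (B i * B l)) =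
              1 / 4 * N * B i ^ 2 - K * (B i * ∑ l ∈ range r, B l) := by
            intro i hi
            rw [sum_sub_distrib, sum_ite_eq, if_pos hi, ← mul_sum, ← mul_sum]
            ring
          rw [sum_congr rfl e1, sum_sub_distrib, ← mul_sum, ← mul_sum, ← sum_mul]
          ring
      _ ≤ _ := sum_le_sum fun i hi => sum_le_sum fun l hl =>
          h3 i (mem_range.1 hi) l (mem_range.1 hl)
  have h6 : (∑ i ∈ range r, B i) ^ 2 ≤ r * ∑ i ∈ range r, B i ^ 2 := by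
    have := sq_sum_le_card_mul_sum_sq (s := range r) (f := B)
    simpa using this
  have h7 : K * r ≤ 3 / 16 * N := by
    rw [hK, div_mul_eq_mul_div, div_le_iff₀ hL]
    nlinarith
  have h8 : 0 ≤ ∑ i ∈ range r, B i ^ 2 := sum_nonneg fun i _ => sq_nonneg _
  rw [h1, le_div_iff₀ hN0]
  have h9 : K * (∑ i ∈ range r, B i) ^ 2 ≤ 3 / 16 * N * ∑ i ∈ range r, B i ^ 2 := by
    calc K * (∑ i ∈ range r, B i) ^ 2 ≤ K * (r * ∑ i ∈ range r, B i ^ 2) := by gcongr
      _ = K * r * ∑ i ∈ range r, B i ^ 2 := by ring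
      _ ≤ _ := by gcongr
  have h10 : ∑ i ∈ range r, (‖ctr N n (c i) (s i) - c' i‖ + ‖c i‖ * |s i|) ^ 2 =
      ∑ i ∈ range r, B i ^ 2 := rfl
  rw [h10]
  linarith

end Pool.Agent.H24.GSW
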